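import Pool.Agent.PFE.StmtsE2

/-!
# Row CLY of squad PFE: the centraliser of `Γ0` lifts (helper39)
-/

open scoped BigOperators

noncomputable section

namespace Pool.Agent.PFE.H39

open MulOpposite
open Pool.Agent.PFE
open Pool.Agent.PFC.B1 (FS Split BiM Sep)
open Pool.Agent.PFD (RF)
open Pool.Agent.PFD.D2
open Pool.Agent.PFD.D2b (wrp FPl FrR WFS)

theorem q_pi {R F A1 A : Type} [CommRing R] [Field F] {c : Cdv R F} [Ring A1] [Algebra R A1]
    [Ring A] [Algebra F A] (fb : FibG A1 A c) (m : A1) : fb.q (c.π • m) = 0 := by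
  have h : c.κ c.π = 0 := (c.ker c.π).2 ⟨1, (mul_one _).symm⟩
  rw [Algebra.smul_def, map_mul, fb.sc, h, map_zero, zero_mul]

theorem wrp_AB {R Γ W A1 : Type} [CommRing R] [CommRing Γ] [Algebra R Γ] [CommGroup W] [Fintype W]
    [Ring A1] [Algebra R A1] (om : W →* Γ) (j : Γ →ₐ[R] A1) (w : W × W) (a : A1) :
    wrp om (AB j) w a = j (om w.1) * (a * j (om w.2⁻¹)) := rfl

theorem cly (hYfp : YfpStmt) (hKex : KexStmt) : ClyStmt := by
  intro R F Γ Γ0 W A A1 X Ω Ω' _ _ c _ _ _ _ _ _ _ _ _ _ _ _ _ _ _ l G f χ j0 pr0 ly hl hχ hu x0 hx0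
  obtain ⟨a1, ha1⟩ := ly.fb.surj x0
  have hcom : ∀ γ, ∃ y, ly.j γ * a1 - a1 * ly.j γ = c.π • y := by
    intro γ
    apply ly.fb.ker
    rw [map_sub, map_mul, map_mul, ly.cj, ha1, hx0, sub_self]
  -- the diagonal
  obtain ⟨a2, h2, x2, hx2⟩ := hYfp R Γ W A1 X Ω Ω' l G χ (AB ly.j) ly.fr c.π
    ((MonoidHom.id W).prod (MonoidHom.id W)).range a1 (by
      rintro s ⟨w, rfl⟩
      obtain ⟨y, hy⟩ := hcom (G.om w)
      refine ⟨y * ly.j (G.om w⁻¹), ?_⟩
      have h1 : ly.j (G.om w) * ly.j (G.om w⁻¹) = 1 := by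
        rw [← map_mul, ← map_mul, mul_inv_cancel, map_one, map_one]
      have h3 : wrp G.om (AB ly.j) ((MonoidHom.id W).prod (MonoidHom.id W) w) a1 =
          ly.j (G.om w) * (a1 * ly.j (G.om w⁻¹)) := rfl
      rw [h3]
      calc ly.j (G.om w) * (a1 * ly.j (G.om w⁻¹)) - a1
          = (ly.j (G.om w) * a1 - a1 * ly.j (G.om w)) * ly.j (G.om w⁻¹) := by
            rw [sub_mul, mul_assoc a1, h1, mul_one, mul_assoc]
        _ = c.π • (y * ly.j (G.om w⁻¹)) := by rw [hy, smul_mul_assoc])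
  obtain ⟨κ, hκ1, hκ2, hκ3⟩ := hKex R Γ W A1 X Ω Ω' l G χ (AB ly.j) ly.fr hl hχ hu 1
  obtain ⟨m, hm⟩ := hκ3 c.π a2 (by
    obtain ⟨y, hy⟩ := hcom G.y
    refine ⟨y + (ly.j G.y * x2 - x2 * ly.j G.y), ?_⟩
    have e1 : (AB ly.j).lm G.y a2 = ly.j G.y * a2 := rfl
    have e2 : (AB ly.j).rm (op G.y) a2 = a2 * ly.j G.y := rfl
    have e3 : a2 = a1 + c.π • x2 := by rw [← hx2]; abel
    rw [e1, e2, map_one, one_smul, e3, smul_add, ← hy, mul_add, add_mul, smul_sub,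
      mul_smul_comm, smul_mul_assoc]
    abel)
  have hy' : ly.j G.y * κ a2 = κ a2 * ly.j G.y := by
    have := hκ2 a2
    rw [map_one, one_smul] at this
    exact this
  have hw' : ∀ w, ly.j (G.om w) * κ a2 = κ a2 * ly.j (G.om w) := by
    intro w
    have h4 := hκ1 (w, w) a2
    rw [h2 (w, w) ⟨w, rfl⟩, wrp_AB] at h4
    have h1 : ly.j (G.om w⁻¹) * ly.j (G.om w) = 1 := by
      rw [← map_mul, ← map_mul, inv_mul_cancel, map_one, map_one]
    calc ly.j (G.om w) * κ a2 = ly.j (G.om w) * (κ a2 * ly.j (G.om w⁻¹)) * ly.j (G.om w) := by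
          rw [mul_assoc, mul_assoc, h1, mul_one]
      _ = κ a2 * ly.j (G.om w) := by rw [← h4]
  refine ⟨κ a2, ?_, ?_⟩
  · intro γ
    have hk : ∀ (k : ℕ) (w : W), Commute (ly.j (G.y ^ k * G.om w)) (κ a2) := by
      intro k w
      rw [map_mul, map_pow]
      exact Commute.mul_left (Commute.pow_left hy' k) (hw' w)
    have : Commute (ly.j γ) (κ a2) := by
      rw [← G.ex γ, map_sum]
      apply Commute.sum_left
      intro k _
      rw [map_sum]
      apply Commute.sum_left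
      intro w _
      rw [map_smul]
      exact (hk k w).smul_left _
    exact this
  · have e3 : κ a2 = a1 + c.π • x2 + c.π • m := by
      rw [← hx2, ← hm]; abel
    rw [e3, map_add, map_add, q_pi, q_pi, add_zero, add_zero, ha1]

end Pool.Agent.PFE.H39
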