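import Pool.Agent.PFE.StmtsE2c

/-!
# Row Y0E of squad PFE: the eigenvector (helper39)
-/

open scoped BigOperators

noncomputable section

namespace Pool.Agent.PFE.H39Y

open Pool.Agent.PFE

variable {ℓ : ℕ} [hp : Fact ℓ.Prime] {F V1 : Type} [Field F] [CharP F ℓ] [CommGroup V1]
  [Fintype V1]

/-- the augmentation -/
def eps (F V1 : Type) [Field F] [CommGroup V1] : MonoidAlgebra F V1 →ₐ[F] F :=
  MonoidAlgebra.lift F F V1 1

theorem eps_of (v : V1) : eps F V1 (MonoidAlgebra.of F V1 v) = 1 := by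
  rw [eps, MonoidAlgebra.lift_of]; rfl

theorem pow_l (hV : ∀ v : V1, v ^ ℓ = 1) (a : MonoidAlgebra F V1) :
    a ^ ℓ = algebraMap F _ (eps F V1 a ^ ℓ) := by
  haveI : CharP (MonoidAlgebra F V1) ℓ := charP_of_injective_algebraMap
    (algebraMap F (MonoidAlgebra F V1)).injective ℓ
  induction a using MonoidAlgebra.induction_on with
  | of m =>
    rw [eps_of, one_pow, map_one, ← map_pow, hV, map_one]
  | add x y hx hy =>
    rw [add_pow_char, hx, hy, map_add, add_pow_char, map_add]
  | smul r x hx =>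
    rw [smul_pow, hx, map_smul, smul_eq_mul, mul_pow, map_mul, Algebra.smul_def]

theorem span_aux (x : MonoidAlgebra F V1)
    (hx : ∀ v : V1, ∃ t, MonoidAlgebra.of F V1 v - 1 = x * t) (n : ℕ) (a : MonoidAlgebra F V1) :
    ∃ (c : ℕ → F) (b : MonoidAlgebra F V1),
      a = ∑ k ∈ Finset.range n, c k • x ^ k + x ^ n * b := by
  have h1 : ∀ a : MonoidAlgebra F V1, ∃ (c : F) (b : MonoidAlgebra F V1), a = c • 1 + x * b := by
    intro a
    induction a using MonoidAlgebra.induction_on with
    | of m =>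
      obtain ⟨t, ht⟩ := hx m
      exact ⟨1, t, by rw [one_smul, ← ht]; ring⟩
    | add u v hu hv =>
      obtain ⟨c, b, h⟩ := hu
      obtain ⟨c', b', h'⟩ := hv
      exact ⟨c + c', b + b', by rw [h, h', add_smul, mul_add]; ring⟩
    | smul r u hu =>
      obtain ⟨c, b, h⟩ := hu
      exact ⟨r * c, r • b, by rw [h, smul_add, smul_smul, mul_smul_comm]⟩
  induction n with
  | zero => exact ⟨fun _ => 0, a, by simp⟩
  | succ n ih =>
    obtain ⟨c, b, h⟩ := ih
    obtain ⟨c', b', h'⟩ := h1 b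
    refine ⟨fun k => if k = n then c' else c k, b', ?_⟩
    have h2 : ∑ k ∈ Finset.range n, (fun k => if k = n then c' else c k) k • x ^ k =
        ∑ k ∈ Finset.range n, c k • x ^ k := by
      apply Finset.sum_congr rfl
      intro k hk
      show (if k = n then c' else c k) • x ^ k = _
      rw [if_neg (Finset.mem_range.1 hk).ne]
    have h3 : (fun k => if k = n then c' else c k) n = c' := if_pos rfl
    rw [h, Finset.sum_range_succ, h', h2, h3, mul_add, pow_succ, mul_smul_comm, mul_one]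
    ring

theorem y0e : Y0eStmt := by
  intro ℓ hp F V1 _ _ _ _ hcard
  classical
  have hpr : ℓ.Prime := hp.out
  have hl1 : 1 < ℓ := hpr.one_lt
  haveI : NeZero ℓ := ⟨hpr.ne_zero⟩
  have hfc : Fintype.card V1 = ℓ := by rw [← Nat.card_eq_fintype_card, hcard]
  have hV : ∀ v : V1, v ^ ℓ = 1 := fun v => by rw [← hcard]; exact pow_card_eq_one'
  have e0 : Multiplicative (ZMod ℓ) ≃* V1 := mulEquivOfPrimeCardEq (p := ℓ)
    (by rw [Nat.card_eq_fintype_card, Fintype.card_multiplicative, ZMod.card]) hcard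
  set v : ZMod ℓ → V1 := fun a => e0 (Multiplicative.ofAdd a) with hv
  have v_add : ∀ a b, v (a + b) = v a * v b := fun a b => by
    rw [hv]; show e0 (Multiplicative.ofAdd (a + b)) = _
    rw [ofAdd_add, map_mul]
  have v_zero : v 0 = 1 := by
    rw [hv]; show e0 (Multiplicative.ofAdd 0) = _
    rw [ofAdd_zero, map_one]
  have v_inj : Function.Injective v := fun a b h => by
    have := e0.injective h
    exact Multiplicative.ofAdd.injective this
  have v_surj : ∀ g : V1, ∃ a, v a = g := fun g =>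
    ⟨Multiplicative.toAdd (e0.symm g), by
      rw [hv]; show e0 (Multiplicative.ofAdd (Multiplicative.toAdd (e0.symm g))) = g
      rw [ofAdd_toAdd, MulEquiv.apply_symm_apply]⟩
  have v_nat : ∀ (n : ℕ) (a : ZMod ℓ), v (n * a) = v a ^ n := by
    intro n a
    induction n with
    | zero => rw [Nat.cast_zero, zero_mul, v_zero, pow_zero]
    | succ n ih => rw [Nat.cast_succ, add_mul, one_mul, v_add, ih, pow_succ]
  have v_val : ∀ a : ZMod ℓ, v a = v 1 ^ a.val := by
    intro a
    rw [← v_nat, mul_one, ZMod.natCast_val, ZMod.cast_id]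
  -- the eigenvector
  set ca : ZMod ℓ →+* F := ZMod.castHom (dvd_refl ℓ) F with hca
  have ca_ne : ∀ a : ZMod ℓ, a ≠ 0 → ca a ≠ 0 := fun a ha => by
    rw [Ne, map_eq_zero]; exact ha
  set y : MonoidAlgebra F V1 := ∑ a : ZMod ℓ, (ca a)⁻¹ • (MonoidAlgebra.of F V1 (v a) - 1) with hy
  set g : MonoidAlgebra F V1 := MonoidAlgebra.of F V1 (v 1) with hg
  set x : MonoidAlgebra F V1 := g - 1 with hx
  set t : MonoidAlgebra F V1 := ∑ a : ZMod ℓ, (ca a)⁻¹ • (∑ i ∈ Finset.range a.val, g ^ i) with ht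
  have h_of : ∀ a : ZMod ℓ, MonoidAlgebra.of F V1 (v a) - 1 =
      x * ∑ i ∈ Finset.range a.val, g ^ i := by
    intro a
    rw [hx, mul_geom_sum, hg, ← map_pow, ← v_val]
  have hyx : y = x * t := by
    rw [hy, ht, Finset.mul_sum]
    apply Finset.sum_congr rfl
    intro a _
    rw [h_of, mul_smul_comm]
  have eps_t : eps F V1 t = -1 := by
    rw [ht, map_sum]
    have h1 : ∀ a : ZMod ℓ, eps F V1 ((ca a)⁻¹ • (∑ i ∈ Finset.range a.val, g ^ i)) =
        if a = 0 then 0 else 1 := by
      intro a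
      rw [map_smul, map_sum]
      have h2 : ∀ i ∈ Finset.range a.val, eps F V1 (g ^ i) = 1 := by
        intro i _
        rw [map_pow, hg, eps_of, one_pow]
      rw [Finset.sum_congr rfl h2, Finset.sum_const, Finset.card_range, nsmul_eq_mul, mul_one,
        smul_eq_mul]
      by_cases ha : a = 0
      · rw [if_pos ha, ha, ZMod.val_zero, Nat.cast_zero, mul_zero]
      · rw [if_neg ha]
        have h3 : ((a.val : ℕ) : F) = ca a := by
          rw [← map_natCast ca a.val, ZMod.natCast_val, ZMod.cast_id]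
        rw [h3, inv_mul_cancel₀ (ca_ne a ha)]
    rw [Finset.sum_congr rfl (fun a _ => h1 a), ← Finset.sum_filter_add_sum_filter_not
      Finset.univ (fun a : ZMod ℓ => a = 0)]
    rw [Finset.sum_congr rfl (g := fun _ => (0 : F)) (by
      intro a ha; rw [if_pos (Finset.mem_filter.1 ha).2]), Finset.sum_const_zero, zero_add,
      Finset.sum_congr rfl (g := fun _ => (1 : F)) (by
      intro a ha; rw [if_neg (Finset.mem_filter.1 ha).2]), Finset.sum_const, nsmul_eq_mul, mul_one]
    have h4 : (Finset.univ.filter (fun a : ZMod ℓ => ¬ a = 0)).card = ℓ - 1 := by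
      have : Finset.univ.filter (fun a : ZMod ℓ => ¬ a = 0) = Finset.univ.erase 0 := by
        ext a; simp
      rw [this, Finset.card_erase_of_mem (Finset.mem_univ _), Finset.card_univ, ZMod.card]
    rw [h4, Nat.cast_sub hl1.le, CharP.cast_eq_zero, Nat.cast_one, zero_sub]
  have tu : IsUnit t := by
    have h1 : t ^ ℓ = algebraMap F _ ((-1) ^ ℓ) := by rw [pow_l hV, eps_t]
    have h2 : IsUnit (t ^ ℓ) := by
      rw [h1]
      exact (IsUnit.pow _ isUnit_one.neg).map _
    exact (isUnit_pow_iff hpr.ne_zero).1 h2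
  obtain ⟨t', ht'⟩ := tu.exists_right_inv
  have hxy : x = y * t' := by rw [hyx, mul_assoc, ht', mul_one]
  have hv1 : ∀ w : V1, ∃ s, MonoidAlgebra.of F V1 w - 1 = y * s := by
    intro w
    obtain ⟨a, rfl⟩ := v_surj w
    exact ⟨t' * ∑ i ∈ Finset.range a.val, g ^ i, by rw [h_of, hxy, mul_assoc]⟩
  have yl : y ^ ℓ = 0 := by
    rw [pow_l hV]
    have : eps F V1 y = 0 := by
      rw [hyx, map_mul, hx, map_sub, hg, eps_of, map_one, sub_self, zero_mul]
    rw [this, zero_pow hpr.ne_zero, map_zero]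
  -- the basis
  have hspan : (⊤ : Submodule F (MonoidAlgebra F V1)) ≤
      Submodule.span F (Set.range (fun k : Fin ℓ => y ^ (k : ℕ))) := by
    intro a _
    obtain ⟨c, b, h⟩ := span_aux y hv1 ℓ a
    rw [h, yl, zero_mul, add_zero, Finset.sum_range]
    apply Submodule.sum_mem
    intro k _
    exact Submodule.smul_mem _ _ (Submodule.subset_span ⟨k, rfl⟩)
  have hfr : Fintype.card (Fin ℓ) = Module.finrank F (MonoidAlgebra F V1) := by
    rw [Module.finrank_eq_card_basis (MonoidAlgebra.basis V1 F), Fintype.card_fin, hfc]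
  set B := basisOfTopLeSpanOfCardEqFinrank _ hspan hfr with hB
  have B_ap : ∀ k : Fin ℓ, B k = y ^ (k : ℕ) := fun k => by
    rw [hB, coe_basisOfTopLeSpanOfCardEqFinrank]
  -- the character
  set kk : MulAut V1 → ZMod ℓ := fun σ => Multiplicative.toAdd (e0.symm (σ (v 1))) with hkk
  have kk_spec : ∀ σ : MulAut V1, v (kk σ) = σ (v 1) := by
    intro σ
    rw [hv, hkk]
    show e0 (Multiplicative.ofAdd (Multiplicative.toAdd (e0.symm (σ (v 1))))) = _
    rw [ofAdd_toAdd, MulEquiv.apply_symm_apply]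
  have kk_v : ∀ (σ : MulAut V1) (a : ZMod ℓ), σ (v a) = v (kk σ * a) := by
    intro σ a
    have h1 : a = (a.val : ZMod ℓ) := by rw [ZMod.natCast_val, ZMod.cast_id]
    conv_rhs => rw [h1, mul_comm, v_nat, kk_spec, ← map_pow, ← v_val]
  have kk_one : kk 1 = 1 := by
    apply v_inj
    rw [kk_spec]; rfl
  have kk_mul : ∀ σ τ, kk (σ * τ) = kk σ * kk τ := by
    intro σ τ
    apply v_inj
    rw [kk_spec, ← kk_v, kk_spec]; rfl
  have kk_ne : ∀ σ, kk σ ≠ 0 := by
    intro σ h
    have h1 : kk (σ * σ⁻¹) = 1 := by rw [mul_inv_cancel, kk_one]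
    rw [kk_mul, h, zero_mul] at h1
    exact zero_ne_one h1
  refine ⟨{ y := y
            χ := { toFun := fun σ => ca (kk σ)
                   map_one' := by rw [kk_one, map_one]
                   map_mul' := fun σ τ => by rw [kk_mul, map_mul] }
            χl := ?_
            χi := ?_
            yl := yl
            ye := ?_
            co := fun k => if h : k < ℓ then B.coord ⟨k, h⟩ else 0
            ex := ?_
            un := ?_
            v1 := hv1
            y1 := ⟨v 1, t, hyx⟩ }⟩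
  · intro σ
    show ca (kk σ) ^ (ℓ - 1) = 1
    rw [← map_pow, ZMod.pow_card_sub_one_eq_one (kk_ne σ), map_one]
  · intro σ hσ
    have h1 : ca (kk σ) = ca 1 := by rw [map_one]; exact hσ
    have h2 : kk σ = 1 := ca.injective h1
    ext w
    obtain ⟨a, rfl⟩ := v_surj w
    rw [kk_v, h2, one_mul]; rfl
  · intro σ
    show MonoidAlgebra.domCongr F F σ y = ca (kk σ) • y
    rw [hy, map_sum, Finset.smul_sum]
    have h1 : ∀ a : ZMod ℓ, MonoidAlgebra.domCongr F F σ
        ((ca a)⁻¹ • (MonoidAlgebra.of F V1 (v a) - 1)) =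
        (fun b : ZMod ℓ => ca (kk σ) • ((ca b)⁻¹ • (MonoidAlgebra.of F V1 (v b) - 1)))
          (Equiv.mulLeft₀ (kk σ) (kk_ne σ) a) := by
      intro a
      show _ = ca (kk σ) • ((ca (kk σ * a))⁻¹ • (MonoidAlgebra.of F V1 (v (kk σ * a)) - 1))
      rw [map_smul, map_sub, map_one, smul_smul, map_mul, mul_inv, ← mul_assoc,
        mul_inv_cancel₀ (ca_ne _ (kk_ne σ)), one_mul, ← kk_v]
      have h2 : MonoidAlgebra.domCongr F F σ (MonoidAlgebra.of F V1 (v a)) =
          MonoidAlgebra.of F V1 (σ (v a)) := by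
        rw [MonoidAlgebra.of_apply, MonoidAlgebra.domCongr_single, MonoidAlgebra.of_apply]
      rw [h2]
    rw [Finset.sum_congr rfl (fun a _ => h1 a)]
    exact Equiv.sum_comp (Equiv.mulLeft₀ (kk σ) (kk_ne σ))
      (fun b : ZMod ℓ => ca (kk σ) • ((ca b)⁻¹ • (MonoidAlgebra.of F V1 (v b) - 1)))
  · intro a
    rw [Finset.sum_range]
    conv_rhs => rw [← B.sum_repr a]
    apply Finset.sum_congr rfl
    intro k _
    rw [dif_pos k.2, B_ap]
    rfl
  · intro a k hk
    rw [dif_pos hk, Finset.sum_range]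
    have h1 : ∑ i : Fin ℓ, a i • y ^ (i : ℕ) = ∑ i : Fin ℓ, (fun i : Fin ℓ => a i) i • B i := by
      apply Finset.sum_congr rfl
      intro i _
      rw [B_ap]
    rw [h1, Module.Basis.coord_apply, Module.Basis.repr_sum_self]

end Pool.Agent.PFE.H39Y
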